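import Pool.Agent.H20.SM.TW
import Pool.Agent.H81.CRG.SE
import Pool.Agent.H88.SM.SRq
import Pool.Agent.H88.SM.SRqzR

/-!
# MP_347b49_nt, special moduli: the relations modulo `q`, mollifier moved to the right (row SRqw)

Copy of `Pool.Agent.H88.SM.SRqz` (helper88).
-/

set_option autoImplicit false

open NumberField NumberField.InfinitePlace Complex Filter Topology MeasureTheory

namespace Pool.Agent.H31.SM

open Pool.Agent.H28.RC Pool.Agent.H25.HK Pool.Agent.H37.CV Pool.Agent.H65.CRZ Pool.Agent.H65.CRG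
  Pool.Agent.H20.SM Pool.Agent.H88.SM

/-- the coefficients of the mollifier -/
theorem norm_cg_le {K : Type} [Field K] [NumberField K] {M γ : ℝ} (hM : 1 ≤ M) (hγ : 0 ≤ γ) (u : ℝ)
    (S : Finset (PrI K)) : ‖cg K M γ u S‖ ≤ nS np S ^ (-(1 / 2) : ℝ) := by
  have h1 : 0 < nS np S := Pool.Agent.H96.CV.nS_pos S
  have h0 : 1 ≤ nS np S := Pool.Agent.H96.CV.one_le_nS S
  unfold cg
  rw [norm_mul, Complex.norm_real, Real.norm_eq_abs, Complex.norm_cpow_eq_rpow_re_of_pos h1]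
  have h2 : (-(1 / 2 + (γ : ℂ) + (u : ℂ) * I)).re = -(1 / 2 + γ) := by
    simp
  rw [h2]
  have h3 := mul_le_mul_of_nonneg_right (Pool.Agent.H81.CRG.abs_xw_le hM S)
    (Real.rpow_nonneg h1.le (-(1 / 2 + γ) : ℝ))
  rw [one_mul] at h3
  exact h3.trans (Real.rpow_le_rpow_of_exponent_le h0 (by linarith))

theorem pf_SRqw (hNCR : T_NCR) (hPAR : T_PAR) (hNCG : T_NCG) (hSNO : T_SNO) (hCHT : T_CHT)
    (hDT : T_DTz) (hRS : T_RSz) (hDE : T_DEw) (hCQ : T_CQz) : T_SRqw := by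
  classical
  intro F _ _ _ _
  obtain ⟨CN, E, -, hE, hNCR⟩ := hNCR F
  obtain ⟨C3, E', hSNO⟩ := hSNO F
  obtain ⟨hr1, hnr, cb, hcb, hCQ⟩ := hCQ F
  set r : ℕ := nrComplexPlaces F with hr
  refine ⟨E' + 1, ?_⟩
  intro A ε₁ c C₀ hA h1 h2 hc hC₀
  obtain ⟨x1, hNCR⟩ := hNCR A
  obtain ⟨x2, hPAR⟩ := hPAR F A
  have hκ : 0 < 1 / 2 - ε₁ := by linarith
  set n : ℝ := (Module.finrank ℚ F : ℝ) with hn
  have hn1 : 1 ≤ n := by
    rw [hn]
    exact_mod_cast (Module.finrank_pos : 0 < Module.finrank ℚ F)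
  have hn0 : 0 < n := by linarith
  set ε : ℝ := min (1 / 64) (ε₁ / 8) with hε
  have hε0 : 0 < ε := lt_min (by norm_num) (by linarith)
  have hε1 : ε ≤ 1 / 64 := min_le_left _ _
  have hε2 : ε ≤ ε₁ / 8 := min_le_right _ _
  set Λ : ℝ := 2 * Real.log cb with hΛ
  set D : ℝ := Real.exp |Λ| with hD
  have hD1 : 1 ≤ D := Real.one_le_exp (abs_nonneg _)
  -- the constants of the other rows
  set C₀' : ℝ := C₀ * (1 + |Λ| + 2 * n) with hC₀'
  have hC₀'0 : 0 < C₀' := by positivity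
  obtain ⟨C5, hC5, hCHT⟩ := hCHT F ε hε0 hε1
  obtain ⟨C4, B4, k4, hC4, hB4, hDT⟩ := hDT F C₀' 2 hC₀'0
  obtain ⟨C1, B1, k1, hC1, hB1, hRS⟩ := hRS F C₀' hC₀'0
  obtain ⟨δ, C2, B2, M0, hδ, hC2, hB2, hDE⟩ := hDE F ε₁ (1 / (1 / 2 - ε₁))
    (c * ((1 / 2 - ε₁) * n)) (C₀ * ((1 / 2 - ε₁) * n)) h1 (by positivity) (by positivity)
    (by positivity)
  set B : ℝ := max B4 (max B1 B2) with hB
  have hBa : B4 ≤ B := le_max_left _ _
  have hBb : B1 ≤ B := (le_max_left _ _).trans (le_max_right _ _)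
  have hBc : B2 ≤ B := (le_max_right _ _).trans (le_max_right _ _)
  have hB0 : 0 ≤ B := hB4.trans hBa
  refine ⟨B, hB0, ?_⟩
  intro η hη
  obtain ⟨y0, hy01, hreal⟩ := SRqz_real n D Λ (16 * C₀ + 1) ε₁ (C1 * 3 ^ B) C2 |C3| (C4 * 3 ^ B) C5
    M0 δ η E E' A k1 k4 hn1 hD1 hE hA h1 h2 (by positivity) hC2 (abs_nonneg _) (by positivity)
    hC5 hδ hη
  refine ⟨max (max x1 x2) (Real.exp y0), ?_⟩
  intro x q hx hq α β γ u hα hβ hαβ hγ0 hγ X hX
  have hxe : Real.exp y0 ≤ x := (le_max_right _ _).trans hx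
  have hx1 : x1 ≤ x := ((le_max_left _ _).trans (le_max_left _ _)).trans hx
  have hx2 : x2 ≤ x := ((le_max_right _ _).trans (le_max_left _ _)).trans hx
  have hx0 : 0 < x := lt_of_lt_of_le (Real.exp_pos _) hxe
  set y : ℝ := Real.log x with hy
  have hxy : Real.exp y = x := Real.exp_log hx0
  have hyy0 : y0 ≤ y := (Real.le_log_iff_exp_le hx0).2 hxe
  obtain ⟨-, -, hNCR⟩ := hNCR x q hx1 hq
  obtain ⟨hT1, hT2, hrc, hlogN⟩ := hPAR x q hx2 hq
  have hq1 : 1 ≤ q := Nat.one_le_iff_ne_zero.2 hq.sq.1.ne_zero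
  obtain ⟨hcB, hnmq⟩ := hCQ q hq1
  set m : Ideal (𝓞 F) := qi F q with hm
  obtain ⟨huc, -, -⟩ := hNCR m le_rfl
  set T : ℝ := Real.log q with hT
  have hrc0 : 0 ≤ rc m := SRq_rc_nonneg m
  have hsq : Real.sqrt x = Real.exp (y / 2) := by
    rw [← hxy, Real.sqrt_eq_iff_mul_self_eq (Real.exp_pos _).le (Real.exp_pos _).le, ← Real.exp_add]
    congr 1
    ring
  have hrc' : rc m ≤ 2 * n * y ^ A * Real.exp (-(y / 2)) := by
    refine hrc.trans (le_of_eq ?_)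
    rw [hsq, Real.exp_neg]
    rfl
  obtain ⟨g1, g2, g0, g3, g4, g5, g6⟩ := hreal y T (rc m) hyy0 hT1 hT2 hrc0 hrc'
  have hy1 : 1 ≤ y := hy01.trans hyy0
  have hE' : (1 : ℝ) ≤ E := by exact_mod_cast hE
  have hT0 : 0 < T := by linarith
  have hT1' : 1 ≤ T := by linarith
  have hnT0 : 0 < n * T := by positivity
  have hΛ1 := neg_abs_le Λ
  have hΛ2 := le_abs_self Λ
  have hεn : ε₁ * (n * T) ≤ 1 / 2 * (n * T) := mul_le_mul_of_nonneg_right h2.le hnT0.le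
  -- the norm of `q`
  have hqe : (q : ℝ) = Real.exp T := by
    have h4 : (0 : ℝ) < (q : ℝ) := by exact_mod_cast hq1
    rw [hT, Real.exp_log h4]
  set N : ℝ := nm m with hN
  have hN0 : 0 ≤ N := Nat.cast_nonneg _
  have hNe : N = Real.exp (n * T) := by
    rw [hnmq, hqe, ← Real.exp_nat_mul]
  have hNpos : 0 < N := by rw [hNe]; exact Real.exp_pos _
  have hmb : m ≠ ⊥ := by
    intro h0
    have : N = 0 := by
      rw [hN, h0]
      unfold nm
      rw [Ideal.absNorm_bot]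
      simp
    linarith
  set M : ℝ := Mo F ε₁ q with hM
  have hMe : M = Real.exp ((1 / 2 - ε₁) * (n * T)) := by
    have h3 : M = N ^ (1 / 2 - ε₁) := rfl
    rw [h3, hNe, ← Real.exp_mul]
    congr 1
    ring
  have hMpos : 0 < M := by rw [hMe]; exact Real.exp_pos _
  have hlogM : Real.log M = (1 / 2 - ε₁) * (n * T) := by rw [hMe, Real.log_exp]
  have hM1 : 1 ≤ M := by rw [hMe]; exact Real.one_le_exp (by positivity)
  have hlM0 : 0 ≤ Real.log M := Real.log_nonneg hM1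
  have hM0 : M0 ≤ M := by
    refine (le_max_left M0 1).trans ?_
    rw [hMe]
    exact (Real.log_le_iff_le_exp (by positivity)).1 g3
  set b : ℝ := cB F m with hb
  have hbe : b = Real.exp (Λ / 2 + n * T / 2) := by
    have h3 : n = 2 * (r : ℝ) := by
      rw [hn, hnr]
      push_cast
      ring
    have h4 : cb = Real.exp (Λ / 2) := by
      rw [hΛ, mul_div_cancel_left₀ _ (two_ne_zero), Real.exp_log hcb]
    rw [hcB, hqe, ← Real.exp_nat_mul, Real.exp_add]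
    rw [← h4]
    congr 2
    rw [h3]
    ring
  set Q : ℝ := b ^ 2 with hQ
  have hQe : Q = Real.exp (Λ + n * T) := by
    rw [hQ, hbe, ← Real.exp_nat_mul]
    congr 1
    push_cast
    ring
  have hQ1 : 1 ≤ Q := by
    rw [hQe]
    exact Real.one_le_exp (by linarith)
  have hlogQ : Real.log Q = Λ + n * T := by rw [hQe, Real.log_exp]
  have hMb : M ^ (1 + ε₁) ≤ b := by
    rw [hMe, hbe, ← Real.exp_mul]
    apply Real.exp_le_exp.mpr
    have h3 : (1 / 2 - ε₁) * (n * T) * (1 + ε₁) =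
        n * T / 2 - ε₁ * (n * T) / 2 - ε₁ ^ 2 * (n * T) := by ring
    have h4 : 0 ≤ ε₁ ^ 2 * (n * T) := by positivity
    rw [h3]
    linarith
  have hbM : b ≤ M ^ (1 / (1 / 2 - ε₁)) := by
    rw [hMe, hbe, ← Real.exp_mul]
    apply Real.exp_le_exp.mpr
    have h5 : (1 / 2 - ε₁) * (1 / (1 / 2 - ε₁)) = 1 := by
      rw [← mul_div_assoc, mul_div_cancel_left₀ _ hκ.ne']
    have h6 : (1 / 2 - ε₁) * (n * T) * (1 / (1 / 2 - ε₁)) = n * T := by
      calc (1 / 2 - ε₁) * (n * T) * (1 / (1 / 2 - ε₁))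
          = (1 / 2 - ε₁) * (1 / (1 / 2 - ε₁)) * (n * T) := by ring
        _ = n * T := by rw [h5, one_mul]
    rw [h6]
    linarith
  set W : ℝ := 1 + Real.log Q + Real.log M with hW
  have hWe : W = 1 + (Λ + n * T) + (1 / 2 - ε₁) * (n * T) := by
    rw [hW, hlogQ, hlogM]
  have hW0 : 0 ≤ W := by
    rw [hWe]
    have : 0 ≤ (1 / 2 - ε₁) * (n * T) := by positivity
    linarith
  have hWT : W ≤ (1 + |Λ| + 2 * n) * T := by
    have h3 : |Λ| * 1 ≤ |Λ| * T := mul_le_mul_of_nonneg_left hT1' (abs_nonneg _)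
    have h4 : (1 / 2 - ε₁) * (n * T) ≤ 1 * (n * T) :=
      mul_le_mul_of_nonneg_right (by linarith) hnT0.le
    rw [hWe]
    linarith
  -- the shifts
  have hsh0 : C₀ / T ≤ 1 / 16 := by
    rw [div_le_iff₀ hT0]
    linarith
  obtain ⟨re1, re2, im12⟩ := Pool.Agent.H81.CRG.shift (δ := C₀ / T) (by linarith) α β u hα hβ
  set s₁ : ℂ := 1 / 2 + α + u * I with hs₁
  set s₂ : ℂ := 1 / 2 + β - u * I with hs₂
  have hCW : C₀ / T * W ≤ C₀' := by
    calc C₀ / T * W ≤ C₀ / T * ((1 + |Λ| + 2 * n) * T) :=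
          mul_le_mul_of_nonneg_left hWT (by positivity)
      _ = C₀' := by
          rw [hC₀']
          field_simp
  have re1' : |s₁.re - 1 / 2| ≤ 1 / 16 := re1.trans hsh0
  have re2' : |s₂.re - 1 / 2| ≤ 1 / 16 := re2.trans hsh0
  have rw1 : |s₁.re - 1 / 2| * W ≤ C₀' := (mul_le_mul_of_nonneg_right re1 hW0).trans hCW
  have rw2 : |s₂.re - 1 / 2| * W ≤ C₀' := (mul_le_mul_of_nonneg_right re2 hW0).trans hCW
  set c₁ : Finset (PrI F) → ℂ := cg F M γ u with hc₁def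
  set c₂ : Finset (PrI F) → ℂ := cg F M γ (-u) with hc₂def
  have hc₁ : ∀ S, ‖c₁ S‖ ≤ nS np S ^ (-(1 / 2) : ℝ) :=
    fun S => norm_cg_le hM1 hγ0 u S
  have hc₂ : ∀ S, ‖c₂ S‖ ≤ nS np S ^ (-(1 / 2) : ℝ) :=
    fun S => norm_cg_le hM1 hγ0 (-u) S
  have hαM : ‖α‖ ≤ C₀ * ((1 / 2 - ε₁) * n) / Real.log M := by
    refine hα.trans (le_of_eq ?_)
    rw [hlogM, ← mul_assoc (1 / 2 - ε₁) n T, mul_comm C₀,
      mul_div_mul_left _ _ (mul_pos hκ hn0).ne']
  have hβM : ‖β‖ ≤ C₀ * ((1 / 2 - ε₁) * n) / Real.log M := by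
    refine hβ.trans (le_of_eq ?_)
    rw [hlogM, ← mul_assoc (1 / 2 - ε₁) n T, mul_comm C₀,
      mul_div_mul_left _ _ (mul_pos hκ hn0).ne']
  have hγM : γ ≤ C₀ * ((1 / 2 - ε₁) * n) / Real.log M := by
    refine hγ.trans (le_of_eq ?_)
    rw [hlogM, ← mul_assoc (1 / 2 - ε₁) n T, mul_comm C₀,
      mul_div_mul_left _ _ (mul_pos hκ hn0).ne']
  have hαβM : c * ((1 / 2 - ε₁) * n) / Real.log M ≤ ‖α + β‖ := by
    refine le_trans (le_of_eq ?_) hαβ
    rw [hlogM, ← mul_assoc (1 / 2 - ε₁) n T, mul_comm c,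
      mul_div_mul_left _ _ (mul_pos hκ hn0).ne']
  have hu1 : 1 ≤ 1 + |u| := by linarith [abs_nonneg u]
  set U : ℝ := (1 + |u|) ^ B with hU
  have hU0 : 0 < U := Real.rpow_pos_of_pos (by linarith) _
  have h3B : (0 : ℝ) < 3 ^ B := Real.rpow_pos_of_pos (by norm_num) _
  have hUa : ∀ B' : ℝ, 0 ≤ B' → B' ≤ B → (1 + |s₁.im| + |s₂.im|) ^ B' ≤ 3 ^ B * U := by
    intro B' hB'0 hB'
    have h3 : 0 ≤ 1 + |s₁.im| + |s₂.im| := by positivity
    calc (1 + |s₁.im| + |s₂.im|) ^ B' ≤ (3 * (1 + |u|)) ^ B' := Real.rpow_le_rpow h3 im12 hB'0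
      _ ≤ (3 * (1 + |u|)) ^ B := Real.rpow_le_rpow_of_exponent_le (by linarith) hB'
      _ = 3 ^ B * U := Real.mul_rpow (by norm_num) (by linarith)
  have hUb : (1 + |u|) ^ B2 ≤ U := Real.rpow_le_rpow_of_exponent_le hu1 hBc
  -- the threshold
  set L : ℝ := Real.exp (16 * E * y) with hL
  have hL2 : 2 ≤ L := by
    have h3 : (16 : ℝ) * E * y + 1 ≤ L := Real.add_one_le_exp _
    have h4 : 1 ≤ (E : ℝ) * y := one_le_mul_of_one_le_of_one_le hE' hy1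
    linarith
  have hL1 : 1 ≤ L := by linarith
  have hlogL : Real.log L = 16 * E * y := Real.log_exp _
  -- the two parts
  set Xa := X.filter fun p => nm p.1 * nm p.2 < L with hXa
  set Xb := X.filter fun p => ¬ nm p.1 * nm p.2 < L with hXb
  rw [← Finset.sum_filter_add_sum_filter_not X (fun p => nm p.1 * nm p.2 < L)]
  have parta : ∑ p ∈ Xa, ‖Dz m Q M s₁ s₂ c₁ c₂ p.1 p.2‖ ≤
      U * ((C1 * 3 ^ B * W ^ k1 * rc m + C2 / Real.log M) * (|C3| * (1 + 16 * E * y) ^ E')) := by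
    have hLq : L < qd q m := by
      rw [hm, SRq_qd q hq.sq.1, hqe, hL]
      exact Real.exp_lt_exp.mpr g1
    have hprop : ∀ p ∈ Xa, p ∈ CP m m ∧ p ≠ (⊤, ⊤) ∧ nm p.1 * nm p.2 < L ∧
        Ideal.absNorm p.1 = Ideal.absNorm p.2 := by
      intro p hp
      rw [hXa, Finset.mem_filter] at hp
      obtain ⟨h3, h4⟩ := hX p hp.1
      refine ⟨h3, h4, hp.2, ?_⟩
      exact (hNCG F q hq.sq m le_rfl p h3).2.1 (hp.2.trans hLq)
    have hterm : ∀ p ∈ Xa, ‖Dz m Q M s₁ s₂ c₁ c₂ p.1 p.2‖ ≤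
        U * (C1 * 3 ^ B * W ^ k1 * rc m + C2 / Real.log M) *
        (wt p * (1 + Real.log (nm p.1 * nm p.2)) ^ 2) := by
      intro p hp
      obtain ⟨⟨i1, i2, i3, i4, i5, -⟩, h4, h5, h6⟩ := hprop p hp
      have j1 := SRq_nm_ge i1
      have j2 := SRq_nm_ge i2
      have hw := SRq_wt_nonneg p
      have hlog0 : 0 ≤ Real.log (nm p.1 * nm p.2) :=
        Real.log_nonneg (one_le_mul_of_one_le_of_one_le j1 j2)
      have ht1 : p.1 ≠ ⊤ := by
        intro h7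
        rw [h7, Ideal.absNorm_top] at h6
        apply h4
        apply Prod.ext
        · exact h7
        · exact Ideal.absNorm_eq_one_iff.1 h6.symm
      have ht2 : p.2 ≠ ⊤ := by
        intro h7
        rw [h7, Ideal.absNorm_top] at h6
        exact ht1 (Ideal.absNorm_eq_one_iff.1 h6)
      have hsm : nm p.1 * nm p.2 ≤ M ^ δ := by
        refine h5.le.trans ?_
        rw [hL, hMe, ← Real.exp_mul]
        apply Real.exp_le_exp.mpr
        linarith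
      have k1' := hRS m Q M s₁ s₂ c₁ c₂ p.1 p.2 hmb hQ1 hM1 re1' re2' rw1 rw2 hc₁ hc₂ i1 i2 i3 i4 i5
      have k2' := hDE M b hM0 hMb hbM α β γ u hαM hβM hαβM hγ0 hγM p.1 p.2 i1 i2 ht1 ht2 i3 hsm
      have k3 : ‖Dz m Q M s₁ s₂ c₁ c₂ p.1 p.2‖ ≤
          ‖Dz m Q M s₁ s₂ c₁ c₂ p.1 p.2 - Dn (K := F) ⊤ Q M s₁ s₂ c₁ c₂ p.1 p.2‖ +
          ‖Dn (K := F) ⊤ Q M s₁ s₂ c₁ c₂ p.1 p.2‖ := by
        have := norm_add_le (Dz m Q M s₁ s₂ c₁ c₂ p.1 p.2 -
          Dn (K := F) ⊤ Q M s₁ s₂ c₁ c₂ p.1 p.2) (Dn (K := F) ⊤ Q M s₁ s₂ c₁ c₂ p.1 p.2)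
        rwa [sub_add_cancel] at this
      exact (k3.trans (add_le_add k1' k2')).trans (SRqz_ta hC1.le hC2.le (hUa B1 hB1 hBb) hUb hU0.le
        hW0 hrc0 hlM0 hw hlog0 h3B.le)
    refine (Finset.sum_le_sum hterm).trans ?_
    rw [← Finset.mul_sum, mul_assoc]
    apply mul_le_mul_of_nonneg_left _ hU0.le
    apply mul_le_mul_of_nonneg_left _ (by positivity)
    have k5 := hSNO L Xa hL1 (by
      intro p hp
      obtain ⟨⟨i1, i2, -⟩, -, h5, h6⟩ := hprop p hp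
      refine ⟨i1, i2, h6, ?_⟩
      refine le_trans ?_ h5.le
      exact le_mul_of_one_le_right (by linarith [SRq_nm_ge i1]) (SRq_nm_ge i2))
    refine k5.trans ?_
    rw [hlogL]
    apply mul_le_mul_of_nonneg_right (le_abs_self _)
    have : 0 ≤ (16 : ℝ) * E * y := by positivity
    positivity
  have partb : ∑ p ∈ Xb, ‖Dz m Q M s₁ s₂ c₁ c₂ p.1 p.2‖ ≤
      U * (C4 * 3 ^ B * W ^ k4 * (C5 * (Real.exp (-(4 * E * y)) + D * Real.exp (-y)))) := by
    have hprop : ∀ p ∈ Xb, p ∈ CP m m ∧ L ≤ nm p.1 * nm p.2 := by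
      intro p hp
      rw [hXb, Finset.mem_filter] at hp
      exact ⟨(hX p hp.1).1, not_lt.1 hp.2⟩
    have hterm : ∀ p ∈ Xb, ‖Dz m Q M s₁ s₂ c₁ c₂ p.1 p.2‖ ≤ U * (C4 * 3 ^ B * W ^ k4) *
        (wt p * min 1 ((Q * M ^ 2 / (nm p.1 * nm p.2)) ^ 2)) := by
      intro p hp
      obtain ⟨⟨i1, i2, i3, i4, i5, -⟩, h4⟩ := hprop p hp
      have hw := SRq_wt_nonneg p
      have h7 := hUa B4 hB4 hBa
      have h8 : 0 ≤ min 1 ((Q * M ^ 2 / (nm p.1 * nm p.2)) ^ 2) := by positivity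
      refine (hDT m Q M s₁ s₂ c₁ c₂ p.1 p.2 hQ1 hM1 re1' re2' rw1 rw2 hc₁ hc₂ i1 i2 i3).trans ?_
      exact SRqz_tb hC4.le h7 hW0 hw h8
    refine (Finset.sum_le_sum hterm).trans ?_
    rw [← Finset.mul_sum, mul_assoc]
    apply mul_le_mul_of_nonneg_left _ hU0.le
    apply mul_le_mul_of_nonneg_left _ (by positivity)
    have hYe : Q * M ^ 2 = Real.exp (Λ + (2 - 2 * ε₁) * (n * T)) := by
      rw [hQe, hMe, ← Real.exp_nat_mul, ← Real.exp_add]
      congr 1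
      push_cast
      ring
    have hY1 : 1 ≤ Q * M ^ 2 := one_le_mul_of_one_le_of_one_le hQ1 (one_le_pow₀ hM1)
    have huc' : (uc m : ℝ) ≤ L ^ (1 / 16 : ℝ) := by
      refine huc.trans (le_of_eq ?_)
      rw [hL, ← Real.exp_mul, ← hxy, ← Real.exp_nat_mul]
      congr 1
      ring
    refine (hCHT m m L (Q * M ^ 2) Xb hmb le_rfl hL2 hY1 huc' hprop).trans ?_
    apply mul_le_mul_of_nonneg_left _ hC5.le
    apply add_le_add
    · rw [hL, ← Real.exp_mul]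
      apply Real.exp_le_exp.mpr
      linarith
    · have hpow : (Q * M ^ 2) ^ (1 / 2 + ε) ≤
          D * Real.exp ((1 - 3 * ε₁ / 4) * (n * T)) := by
        rw [hYe, ← Real.exp_mul, hD, ← Real.exp_add]
        apply Real.exp_le_exp.mpr
        exact SRqz_exp h1 hε0 hε1 hε2 hnT0.le
      have huc2 : (uc m : ℝ) ≤ Real.exp (E * y) := by
        refine huc.trans (le_of_eq ?_)
        rw [← hxy, ← Real.exp_nat_mul]
      have huc0 : 0 ≤ (uc m : ℝ) := Nat.cast_nonneg _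
      calc (Q * M ^ 2) ^ (1 / 2 + ε) * uc m / nm m
          ≤ D * Real.exp ((1 - 3 * ε₁ / 4) * (n * T)) * Real.exp (E * y) / N := by
            apply div_le_div_of_nonneg_right _ hN0
            exact mul_le_mul hpow huc2 huc0 (by positivity)
        _ = D * Real.exp (E * y - 3 * ε₁ / 4 * (n * T)) := by
            rw [hNe, mul_assoc, ← Real.exp_add, mul_div_assoc, ← Real.exp_sub]
            congr 2
            ring
        _ ≤ D * Real.exp (-y) :=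
            mul_le_mul_of_nonneg_left (Real.exp_le_exp.mpr g5) (by linarith)
  rw [hWe, hlogM] at parta
  rw [hWe] at partb
  have hfin := mul_le_mul_of_nonneg_left g6 hU0.le
  calc ∑ p ∈ Xa, ‖Dz m Q M s₁ s₂ c₁ c₂ p.1 p.2‖ + ∑ p ∈ Xb, ‖Dz m Q M s₁ s₂ c₁ c₂ p.1 p.2‖
      ≤ _ := add_le_add parta partb
    _ = _ := (mul_add _ _ _).symm
    _ ≤ U * η := hfin
    _ = η * U := mul_comm _ _

end Pool.Agent.H31.SM
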